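import Pool.Agent.W36.SL.VLaw
import Pool.Agent.H499R2.NDWord

set_option autoImplicit false

/-! The exact asymptotics of the number of starting points with a large excursion. -/

namespace Pool.Agent.Results.MP_0a5adf_nt.SharpLaw

open Filter Topology

/-- the accelerated `3x+1` map -/
def T (n : ℕ) : ℕ := if n % 2 = 0 then n / 2 else (3 * n + 1) / 2

/-- the trajectory of `n` exceeds `V` before it reaches a value `≤ y` -/
def ExceedsBefore (V y : ℝ) (n : ℕ) : Prop :=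
  ∃ k, V < (T^[k] n : ℕ) ∧ ∀ j ≤ k, y < (T^[j] n : ℕ)

/-- the number of positive integers `n ≤ x` with the property `P` -/
noncomputable def count (P : ℕ → Prop) (x : ℝ) : ℝ := ({n : ℕ | 1 ≤ n ∧ (n : ℝ) ≤ x ∧ P n}.ncard : ℝ)

/-- `t(n) < ∞` -/
def FiniteExcursion (n : ℕ) : Prop := ∃ M : ℕ, ∀ k, T^[k] n ≤ M

/-- `t(n) ≤ c` -/
def ExcursionLE (n : ℕ) (c : ℝ) : Prop := ∀ k, (T^[k] n : ℝ) ≤ c

/-- the positive integers with the property `P` have the natural density `δ` -/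
def HasDensity (P : ℕ → Prop) (δ : ℝ) : Prop :=
  Tendsto (fun N : ℕ => ({n : ℕ | 1 ≤ n ∧ n ≤ N ∧ P n}.ncard : ℝ) / N) atTop (𝓝 δ)

/-- words `w` of length `K` over `{0,1}` with `3^(w_0+...+w_(k-1)) / 2^k < lam` for `1 ≤ k ≤ K` -/
def safeWords (K : ℕ) (lam : ℝ) : Set (Fin K → Fin 2) :=
  {w | ∀ k, 1 ≤ k → k ≤ K →
    (3 : ℝ) ^ (∑ i ∈ Finset.univ.filter (fun i : Fin K => (i : ℕ) < k), (w i : ℕ)) < lam * 2 ^ k}

theorem T_eq : T = Pool.Agent.Helper894.Collatz.T := rfl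

open scoped Classical in
theorem count_eq (P : ℕ → Prop) {x : ℝ} (hx : 0 ≤ x) :
    count P x = (((Finset.Icc 1 ⌊x⌋₊).filter P).card : ℝ) := by
  unfold count
  have : {n : ℕ | 1 ≤ n ∧ (n : ℝ) ≤ x ∧ P n} = (((Finset.Icc 1 ⌊x⌋₊).filter P : Finset ℕ) : Set ℕ) := by
    ext n
    rw [Finset.coe_filter]
    simp only [Set.mem_ofPred_eq, Finset.mem_Icc, Nat.le_floor_iff hx]
    tauto
  rw [this, Set.ncard_coe_finset]

open Pool.Agent.H499R2.ND Pool.Agent.W36.SL in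
theorem s_eq {lam : ℝ} (hl : 1 < lam) (K : ℕ) : s K lam = ((safeWords K lam).ncard : ℝ) / 2 ^ K := by
  classical
  have h1 : rK K lam = ((safeWords K lam).ncard : ℝ) / 2 ^ K := rK_words K lam
  rw [← h1]
  have h2 := card_PP K lam
  have h3 : ∀ n, ¬ Pool.Agent.H828R3.Exc.PP lam K n ↔ AK K lam n := by
    intro n
    unfold Pool.Agent.H828R3.Exc.PP AK
    push Not
    constructor
    · intro h k _ hk2
      exact h k hk2
    · intro h k hk2
      rcases Nat.eq_zero_or_pos k with h0 | h0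
      · subst h0
        simpa [Pool.Agent.Helper894.Collatz.od] using hl
      · exact h k h0 hk2
  have h4 := Finset.card_filter_add_card_filter_not (s := Finset.range (2 ^ K))
    (fun n => Pool.Agent.H828R3.Exc.PP lam K n)
  rw [Finset.card_range] at h4
  have h5 : (((Finset.range (2 ^ K)).filter (fun n => Pool.Agent.H828R3.Exc.PP lam K n)).card : ℝ) +
      (((Finset.range (2 ^ K)).filter (fun n => ¬ Pool.Agent.H828R3.Exc.PP lam K n)).card : ℝ) = 2 ^ K := by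
    exact_mod_cast h4
  have h6 : (Finset.range (2 ^ K)).filter (fun n => ¬ Pool.Agent.H828R3.Exc.PP lam K n) =
      (Finset.range (2 ^ K)).filter (AK K lam) := Finset.filter_congr fun n _ => h3 n
  rw [h6, h2] at h5
  unfold rK
  rw [eq_div_iff (by positivity)]
  have h7 : (((Finset.range (2 ^ K)).filter (AK K lam)).card : ℝ) = s K lam * 2 ^ K := by linarith
  rw [← h7]

theorem density_sub {P Q : ℕ → Prop} {a b : ℝ} (h : ∀ n, Q n → P n) (hP : HasDensity P a)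
    (hQ : HasDensity Q b) : HasDensity (fun n => P n ∧ ¬ Q n) (a - b) := by
  unfold HasDensity at *
  refine (hP.sub hQ).congr fun N => ?_
  have hfin : {n : ℕ | 1 ≤ n ∧ n ≤ N ∧ P n}.Finite :=
    (Set.finite_Icc 1 N).subset fun n hn => ⟨hn.1, hn.2.1⟩
  have hsub : {n : ℕ | 1 ≤ n ∧ n ≤ N ∧ Q n} ⊆ {n : ℕ | 1 ≤ n ∧ n ≤ N ∧ P n} :=
    fun n hn => ⟨hn.1, hn.2.1, h n hn.2.2⟩
  have h1 := Set.ncard_diff_add_ncard_of_subset hsub hfin
  have h2 : {n : ℕ | 1 ≤ n ∧ n ≤ N ∧ P n} \ {n : ℕ | 1 ≤ n ∧ n ≤ N ∧ Q n} =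
      {n : ℕ | 1 ≤ n ∧ n ≤ N ∧ P n ∧ ¬ Q n} := by
    ext n
    simp only [Set.mem_sdiff, Set.mem_ofPred_eq]
    tauto
  rw [h2] at h1
  have h3 : ({n : ℕ | 1 ≤ n ∧ n ≤ N ∧ P n ∧ ¬ Q n}.ncard : ℝ) + ({n : ℕ | 1 ≤ n ∧ n ≤ N ∧ Q n}.ncard : ℝ) =
      ({n : ℕ | 1 ≤ n ∧ n ≤ N ∧ P n}.ncard : ℝ) := by exact_mod_cast h1
  rw [← h3]
  ring

/-- SHARP LAW OF LARGE EXCURSIONS. For `lam > 1` let `q lam` be the limit of the proportion of the safe
words of length `K`. Then `lam * (1 - q lam)` tends to `C = (∫_1^2 q) / log (27/16) > 0`. For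
`0 < θ ≤ θ' < 1` and `v < θ / 21`, as `x → ∞`, uniformly for `x^θ ≤ y ≤ x^θ'`, the number of the
`n ≤ x` whose trajectory exceeds `lam * n` before it reaches a value `≤ y` is `(C + o(1)) x / lam` as
`lam → ∞`, `lam ≤ x^v`, and the number of the `n ≤ x` whose trajectory exceeds `V` before it reaches a
value `≤ y` is `(C/2 + o(1)) x^2 / V` as `V / x → ∞`, `V ≤ x^(1+v)`. The `n` with `t(n) < ∞` have a
density `β > 0` and those with `lam * n < t(n) < ∞` the density `β * (1 - q lam)`. -/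
theorem result : ∃ (q : ℝ → ℝ) (C β : ℝ),
    (∀ lam : ℝ, 1 < lam →
      Tendsto (fun K : ℕ => ((safeWords K lam).ncard : ℝ) / 2 ^ K) atTop (𝓝 (q lam))) ∧
    0 < C ∧ C = (∫ t in (1 : ℝ)..2, q t) / Real.log (27 / 16) ∧
    Tendsto (fun lam => lam * (1 - q lam)) atTop (𝓝 C) ∧
    (∀ θ θ' v : ℝ, 0 < θ → θ ≤ θ' → θ' < 1 → v < θ / 21 → ∀ ε : ℝ, 0 < ε →
      ∃ L x₀ : ℝ, ∀ x y : ℝ, x₀ ≤ x → x ^ θ ≤ y → y ≤ x ^ θ' →
        (∀ lam : ℝ, L ≤ lam → lam ≤ x ^ v →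
          |count (fun n => ExceedsBefore (lam * n) y n) x - C * (x / lam)| ≤ ε * (x / lam)) ∧
        (∀ V : ℝ, L * x ≤ V → V ≤ x ^ (1 + v) →
          |count (ExceedsBefore V y) x - C / 2 * (x ^ 2 / V)| ≤ ε * (x ^ 2 / V))) ∧
    0 < β ∧ β ≤ 1 ∧ (β = 1 ↔ ∀ n : ℕ, 1 ≤ n → FiniteExcursion n) ∧
    HasDensity FiniteExcursion β ∧
    ∀ lam : ℝ, 1 < lam →
      HasDensity (fun n => FiniteExcursion n ∧ ¬ ExcursionLE n (lam * n)) (β * (1 - q lam)) := by
  classical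
  obtain ⟨β, h0, h1, h2, h3⟩ := Pool.Agent.H499R2.ND.Bdd_density
  refine ⟨Pool.Agent.W36.SL.q, Pool.Agent.W36.SL.C, β, ?_, Pool.Agent.W36.SL.C_pos, rfl,
    Pool.Agent.W36.SL.p_tendsto, ?_, h0, h1, h2, h3, ?_⟩
  · intro lam hl
    exact (Pool.Agent.W36.SL.s_tendsto lam).congr fun K => s_eq hl K
  · intro θ θ' v g1 g2 g3 g4 ε hε
    obtain ⟨La, xa, ha⟩ := Pool.Agent.W36.SL.uniform g1 g2 g3 g4 hε
    obtain ⟨Lb, xb, hb⟩ := Pool.Agent.W36.SL.vlaw g1 g2 g3 g4 hε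
    refine ⟨max La Lb, max (max xa xb) 0, fun x y hx hy1 hy2 => ⟨fun lam k1 k2 => ?_, fun V k1 k2 => ?_⟩⟩
    · have hx0 : 0 ≤ x := le_trans (le_max_right _ _) hx
      have h := ha x y lam (le_trans (le_trans (le_max_left _ _) (le_max_left _ _)) hx) hy1 hy2
        (le_trans (le_max_left _ _) k1) k2
      rw [count_eq _ hx0]
      exact h
    · have hx0 : 0 ≤ x := le_trans (le_max_right _ _) hx
      have h := hb x y V (le_trans (le_trans (le_max_right _ _) (le_max_left _ _)) hx) hy1 hy2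
        (le_trans (mul_le_mul_of_nonneg_right (le_max_right _ _) hx0) k1) k2
      rw [count_eq _ hx0]
      exact h
  · intro lam hl
    obtain ⟨q', e1, e2, e3, e4⟩ := Pool.Agent.H499R2.ND.exc_law h3 hl.le
    have hq : q' = Pool.Agent.W36.SL.q lam := by
      refine tendsto_nhds_unique e1 ((Pool.Agent.W36.SL.s_tendsto lam).congr fun K => ?_)
      rw [s_eq hl K]
      exact (Pool.Agent.H499R2.ND.rK_words K lam).symm
    rw [hq] at e4
    have h5 : HasDensity (fun n => ExcursionLE n (lam * n)) (β * Pool.Agent.W36.SL.q lam) := e4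
    have h6 := density_sub (P := FiniteExcursion) (Q := fun n => ExcursionLE n (lam * n))
      (fun n hn => ⟨⌊lam * n⌋₊, fun k => Nat.le_floor (hn k)⟩) h3 h5
    have e : β * (1 - Pool.Agent.W36.SL.q lam) = β - β * Pool.Agent.W36.SL.q lam := by ring
    rw [e]
    exact h6

end Pool.Agent.Results.MP_0a5adf_nt.SharpLaw
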